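import Mathlib
import Pool.Agent.N646.RW.Cov

/-!
# Every set of shifts up to the record scale is covered by sets almost all of whose tuples are clusters of
# primes isolated in record windows

Let `f(X) = log X (log₂ X)² log₄ X / (log₃ X)²`, the order of the largest gaps between consecutive primes that are
known (starting files) to occur up to `X`.

Theorem. There is `ρ > 0` such that for all `k`, all squarefree `q` and all `ε > 0` there are `M, K, n₀, m` and
`c > 0` with: for every `a` coprime to `q`, all large `X` and EVERY set `V` of at least `n₀` multiples of `M` in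
`[0, c f(X)]` (no lower bound for its density, and any scale below the record scale) there are `m` subsets
`U_1, …, U_m` of `V` such that

* for every `j`, for all but at most `ε |U_j|^(k+1)` of the `(k+1)`-tuples `y` of distinct elements of `U_j` there
  are at least `X^(6/7)` integers `n ≡ a (mod q)` of `(X, 3X]` such that `n + y_0, …, n + y_k` are primes and the
  interval `[n - c f(X), n + c f(X)]` contains at most `K` primes (so that next to or inside the cluster there is a
  gap longer than `c f(X) / (K + 1)`);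
* all but at most `ε |V|` elements of `V` lie in at least `(ρ - ε) m` of the sets `U_j`.

In particular one of the `U_j` has at least `(ρ - 2ε) |V|` elements.

Method. (1) The coloured Maynard-Tao theorem for arbitrary admissible tuples in the record windows
(`Pool.Agent.TH101.RG.tuple_multiples`, starting files; the record sieve of helper256, helper410, helper312,
helper362 and others) in the form of `Pool.Agent.N688.FB.rec_hit` (helper688): of any `T` disjoint groups of
`Kf(T)` multiples of `M` below `c f(X)` one can choose elements of `ρ T` groups which are such a cluster. (2) The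
almost clique cover for families of finite sets with such a hitting property (`Pool.Agent.N646.AC.cover`,
helper646): hypergraph containers, a large deviation bound uniform over the containers, multiplicative weights.
-/

set_option autoImplicit false

namespace Pool.Agent.Results.MP_b0c12c_nt.AlmostCliquesInRecordWindows

open Filter Finset

/-- The record scale `f(x) = log x (log₂ x)² log₄ x / (log₃ x)²` (iterated natural logarithms). -/
noncomputable def f (x : ℝ) : ℝ :=
  Real.log x * (Real.log (Real.log x)) ^ 2 * Real.log (Real.log (Real.log (Real.log x))) /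
    (Real.log (Real.log (Real.log x))) ^ 2

/-- The number of the `n ≡ a (mod q)` in `(X, 3X]` such that all `n + y_i` are prime and at most `K` primes are at
distance at most `G` from `n`. -/
noncomputable def clusters {k : ℕ} (G X : ℝ) (K q a : ℕ) (y : Fin (k + 1) → ℕ) : ℕ :=
  {n : ℕ | X < n ∧ (n : ℝ) ≤ 3 * X ∧ n ≡ a [MOD q] ∧ (∀ i, (n + y i).Prime) ∧
    {p : ℕ | p.Prime ∧ |(p : ℝ) - n| ≤ G}.ncard ≤ K}.ncard

open Classical in
/-- The number of the `(k+1)`-tuples of distinct elements of `U` which are not the pattern of at least `X^(6/7)`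
clusters. -/
noncomputable def exceptions (k : ℕ) (G X : ℝ) (K q a : ℕ) (U : Finset ℕ) : ℕ :=
  ((Fintype.piFinset (fun _ : Fin (k + 1) => U)).filter
    (fun y => Function.Injective y ∧ ¬ X ^ (6 / 7 : ℝ) ≤ (clusters G X K q a y : ℝ))).card

open Classical in
/-- **Almost clique covers in record windows.** -/
theorem result : ∃ ρ : ℝ, 0 < ρ ∧ ∀ k q : ℕ, Squarefree q → ∀ ε : ℝ, 0 < ε →
    ∃ (M K n₀ m : ℕ) (c : ℝ), 1 ≤ M ∧ 1 ≤ m ∧ 0 < c ∧ ∀ a : ℕ, a.Coprime q → ∀ᶠ X : ℝ in atTop,
      ∀ V : Finset ℕ, (∀ v ∈ V, M ∣ v ∧ (v : ℝ) ≤ c * f X) → n₀ ≤ V.card →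
        ∃ U : Fin m → Finset ℕ, (∀ j, U j ⊆ V) ∧
          (∀ j, (exceptions k (c * f X) X K q a (U j) : ℝ) ≤ ε * ((U j).card : ℝ) ^ (k + 1)) ∧
          ((V.filter (fun v => ((univ.filter (fun j => v ∈ U j)).card : ℝ) < (ρ - ε) * m)).card : ℝ) ≤
            ε * V.card := by
  obtain ⟨lam, hlam, h⟩ := Pool.Agent.N646.RW.hit_sets
  refine ⟨1 / lam, by positivity, fun k q hq ε hε => ?_⟩
  obtain ⟨Kf, h⟩ := h q hq
  obtain ⟨m, M₁, n₀, κ, hm, hκ, hcov⟩ := Pool.Agent.N646.AC.cover hlam k ε hε Kf
  obtain ⟨M, K, hM, hqM, c, hc, h⟩ := h M₁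
  refine ⟨M, K, n₀, m, c, hM, hm, hc, fun a ha => ?_⟩
  have hM0 : (0 : ℝ) < M := by exact_mod_cast hM
  filter_upwards [h a ha, Pool.Agent.H312R2.RG.ev_ff c hc] with X hX hff
  intro V hV hn
  have hf0 : 0 ≤ c * f X := mul_nonneg hc.le hff.2.1
  set e : ℕ → ℤ := fun v => ((v / M : ℕ) : ℤ) with he
  have hMe : ∀ v ∈ V, (M : ℤ) * e v = v := by
    intro v hv
    have h1 := Nat.mul_div_cancel' (hV v hv).1
    simp only [he]
    exact_mod_cast h1
  have heinj : Set.InjOn e (V : Set ℕ) := by
    intro v hv w hw h1
    have h2 := hMe v hv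
    have h3 := hMe w hw
    rw [h1, h3] at h2
    exact_mod_cast h2.symm
  set V' : Finset ℤ := V.image e with hV'
  have hV'c : V'.card = V.card := card_image_of_injOn heinj
  obtain ⟨A, hA1, hA2⟩ := hcov ℤ V' (fun F => X ^ (6 / 7 : ℝ) ≤
    Pool.Agent.N688.FB.clu (2 * (c * Pool.Agent.H256R2.SC.ff X)) X 3 M K q a (F : Set ℤ))
    (by rw [hV'c]; exact hn)
    (fun F F' hFF h => h.trans (by
      rw [Nat.cast_le]
      exact Pool.Agent.N688.FB.clu_mono (by exact_mod_cast hFF)))
    (hX V' (by
      intro v hv
      obtain ⟨w, hw, rfl⟩ := mem_image.1 hv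
      refine ⟨by positivity, ?_⟩
      have h1 : ((M : ℝ) * ((e w : ℤ) : ℝ)) = w := by exact_mod_cast congrArg (Int.cast : ℤ → ℝ) (hMe w hw)
      rw [h1]
      exact (hV w hw).2))
  set U : Fin m → Finset ℕ := fun j => V.filter (fun v => e v ∈ A j) with hU
  have hUV : ∀ j, U j ⊆ V := fun j => filter_subset _ _
  have hUc : ∀ j, (U j).card = (A j).card := by
    intro j
    have h1 : (U j).image e = A j := by
      ext t
      rw [mem_image]
      constructor
      · rintro ⟨v, hv, rfl⟩
        exact (mem_filter.1 hv).2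
      · intro ht
        obtain ⟨v, hv, rfl⟩ := mem_image.1 ((hA1 j).1 ht)
        exact ⟨v, mem_filter.2 ⟨hv, ht⟩, rfl⟩
    rw [← h1]
    exact (card_image_of_injOn (heinj.mono (by
      intro v hv
      exact hUV j hv))).symm
  refine ⟨U, hUV, fun j => ?_, ?_⟩
  · obtain ⟨-, -, h3⟩ := hA1 j
    rw [← hUc j] at h3
    refine le_trans ?_ h3
    rw [Nat.cast_le]
    unfold exceptions
    apply card_le_card_of_injOn (fun y i => e (y i))
    · intro y hy
      rw [mem_coe, mem_filter, Fintype.mem_piFinset] at hy
      obtain ⟨hy1, hy2, hy3⟩ := hy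
      rw [mem_coe, Pool.Agent.N646.AC.mem_badT]
      refine ⟨fun i => (mem_filter.1 (hy1 i)).2, fun i i' hii => hy2 (heinj (hUV j (hy1 i))
        (hUV j (hy1 i')) hii), fun hG => hy3 (hG.trans ?_)⟩
      rw [Nat.cast_le]
      unfold Pool.Agent.N688.FB.clu clusters
      apply Set.ncard_le_ncard
      · rintro n ⟨h6, h7, h8, h9, h10⟩
        refine ⟨h6, h7, h8, fun i => ?_, le_trans (Set.ncard_le_ncard ?_ ?_) h10⟩
        · have h11 := h9 (e (y i)) (by
            rw [mem_coe, mem_image]
            exact ⟨i, mem_univ _, rfl⟩)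
          rw [hMe _ (hUV j (hy1 i))] at h11
          exact_mod_cast h11
        · rintro p ⟨hp1, hp2⟩
          refine ⟨hp1, hp2.trans ?_⟩
          show c * f X ≤ 2 * (c * f X)
          linarith
        · apply (Set.finite_Iic ⌊(n : ℝ) + 2 * (c * f X)⌋₊).subset
          rintro p ⟨_, hp2⟩
          have hp3 : |(p : ℝ) - n| ≤ 2 * (c * f X) := hp2
          rw [abs_le] at hp3
          exact Set.mem_Iic.2 (Nat.le_floor (by linarith [hp3.2]))
      · apply (Set.finite_Iic ⌊3 * X⌋₊).subset
        intro n hn
        exact Set.mem_Iic.2 (Nat.le_floor hn.2.1)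
    · intro y hy z hz h
      rw [mem_coe, mem_filter, Fintype.mem_piFinset] at hy hz
      funext i
      exact heinj (hUV j (hy.1 i)) (hUV j (hz.1 i)) (congrFun h i)
  · have h1 : ((V.filter (fun v => ((univ.filter (fun j => v ∈ U j)).card : ℝ) <
        (1 / lam - ε) * m)).card : ℝ) ≤ ((V'.filter (fun v => ((univ.filter (fun j => v ∈ A j)).card : ℝ) <
          (1 / lam - ε) * m)).card : ℝ) := by
      rw [Nat.cast_le]
      apply card_le_card_of_injOn e
      · intro v hv
        rw [mem_coe, mem_filter] at hv
        rw [mem_coe, mem_filter]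
        refine ⟨mem_image_of_mem _ hv.1, ?_⟩
        have h2 : (univ.filter (fun j => e v ∈ A j)) = univ.filter (fun j => v ∈ U j) := by
          ext j
          simp only [mem_filter, hU, mem_univ, true_and]
          exact ⟨fun h => ⟨hv.1, h⟩, fun h => h.2⟩
        rw [h2]
        exact hv.2
      · exact heinj.mono (by
          intro v hv
          exact (mem_filter.1 hv).1)
    refine h1.trans (hA2.trans ?_)
    rw [hV'c]

end Pool.Agent.Results.MP_b0c12c_nt.AlmostCliquesInRecordWindows
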