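import Pool.Agent.N610.AP.Fin

set_option autoImplicit false

/-!
# Isolated patterns of a prime and almost primes at the record scale

Every admissible `k`-tuple `t` of the range `[0, (log X)²]` (it may depend on `X`) has many translates
`n + t_1, …, n + t_k` of which a prescribed one is prime and all are almost primes (they have no prime factor
`≤ X^δ`, hence at most `2/δ` prime factors), such that all the other integers of the interval of the record length
around `n` have a prime factor `≤ exp (√(log X))`.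

Method: the record sieve of the starting files (`Pool.Agent.H256R2`, `H312R2`, `H378R2`, with the tuple version of
`Pool.Agent.TH101.RG`), whose weights repel the window, is combined with an upper bound sieve of dimension `k` and a
lower bound sieve applied to the shifted primes: the Brun sieve over the primes up to `X^δ` which do not divide the
modulus of the record sieve. The exceptional prime of the Bombieri-Vinogradov theorem used there is sieved by hand.
-/

open Filter

namespace Pool.Agent.Results.MP_b0c12c_nt.AlmostPrimePatterns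

/-- The record scale `f(x) = log x (log₂ x)² log₄ x / (log₃ x)²` (iterated natural logarithms). -/
noncomputable def f (x : ℝ) : ℝ :=
  Real.log x * (Real.log (Real.log x)) ^ 2 * Real.log (Real.log (Real.log (Real.log x))) /
    (Real.log (Real.log (Real.log x))) ^ 2

/-- For every `k ≥ 1` there is `δ > 0` such that for every squarefree `d` there is `c > 0` such that for all large
`X`: let `t_1, …, t_k` be integers of `[0, (log X)²]` such that for every prime `p` the `v + t_j` are prime to `p` for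
some `v`, let the `h + t_j` be prime to `d`, and let `1 ≤ i ≤ k`. Then for at least `X^(9/10)` integers
`n ≡ h (mod d)` of `(X, 3X]` the number `n + t_i` is prime, every prime factor of every `n + t_j` is `> X^δ`, and
every integer `n + z`, `|z| ≤ c f(X)`, which is not one of the `n + t_j`, has a prime factor `≤ exp (√(log X))`. -/
theorem result (k : ℕ) (hk : 1 ≤ k) : ∃ δ : ℝ, 0 < δ ∧ ∀ d : ℕ, Squarefree d → ∃ c : ℝ, 0 < c ∧
    ∃ X₀ : ℝ, ∀ X : ℝ, X₀ ≤ X → ∀ t : Fin k → ℕ, (∀ j, (t j : ℝ) ≤ (Real.log X) ^ 2) →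
    (∀ p : ℕ, p.Prime → ∃ v : ℕ, ∀ j, ¬ p ∣ v + t j) →
    ∀ h : ℕ, (∀ j, (h + t j).Coprime d) → ∀ i : Fin k,
    X ^ (9 / 10 : ℝ) ≤ ({n : ℕ | X < n ∧ (n : ℝ) ≤ 3 * X ∧ n ≡ h [MOD d] ∧ (n + t i).Prime ∧
      (∀ j, ∀ p : ℕ, p.Prime → p ∣ n + t j → X ^ δ < (p : ℝ)) ∧
      ∀ z : ℤ, |(z : ℝ)| ≤ c * f X → (∀ j, z ≠ t j) →
        ∃ q : ℕ, q.Prime ∧ (q : ℝ) ≤ Real.exp (Real.sqrt (Real.log X)) ∧ (q : ℤ) ∣ n + z}.ncard : ℝ) := by
  classical
  obtain ⟨δ, hδ, H⟩ := Pool.Agent.N610.AP.ap_form k hk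
  refine ⟨δ, hδ, fun d hd => ?_⟩
  obtain ⟨c, hc, hX⟩ := H (∑ p ∈ d.primeFactors, (1 : ℝ) / p) (Finset.sum_nonneg fun p _ => by positivity) 1
  obtain ⟨X₀, hX₀⟩ := eventually_atTop.1 ((hX d hd).and
    ((Real.tendsto_log_atTop.eventually_ge_atTop (d : ℝ)).and (eventually_ge_atTop 0)))
  refine ⟨c, hc, X₀, fun X hXX t ht hadm h hh i => ?_⟩
  obtain ⟨hmain, hXd, hX0⟩ := hX₀ X hXX
  set S := {n : ℕ | X < n ∧ (n : ℝ) ≤ 3 * X ∧ n ≡ h [MOD d] ∧ (n + t i).Prime ∧
      (∀ j, ∀ p : ℕ, p.Prime → p ∣ n + t j → X ^ δ < (p : ℝ)) ∧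
      ∀ z : ℤ, |(z : ℝ)| ≤ c * f X → (∀ j, z ≠ t j) →
        ∃ q : ℕ, q.Prime ∧ (q : ℝ) ≤ Real.exp (Real.sqrt (Real.log X)) ∧ (q : ℤ) ∣ n + z} with hS
  have hfin : S.Finite := by
    apply (Set.finite_Iic ⌊3 * X⌋₊).subset
    intro p hp
    exact Set.mem_Iic.2 (Nat.le_floor hp.2.1)
  by_contra hcon
  push Not at hcon
  rw [Set.ncard_eq_toFinset_card S hfin] at hcon
  obtain ⟨n, hXn, hn3, hnb, hnd, hprime, hrough, hwin⟩ := hmain 1 d hd.ne_zero (one_dvd _) dvd_rfl le_rfl
    (by rw [pow_one]; exact hXd) 0 (by rw [Int.cast_zero, abs_zero]; positivity) t ht hadm h hh i hfin.toFinset hcon.le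
  apply hnb
  rw [Set.Finite.mem_toFinset]
  refine ⟨hXn, hn3, hnd, hprime, hrough, fun z hz hzt => ?_⟩
  obtain ⟨q, hq, hqX, -, hqd⟩ := hwin z hz (fun j hj => hzt j (by linarith))
  refine ⟨q, hq, hqX, ?_⟩
  have e : (n : ℤ) + z = 1 * n + 0 + z := by ring
  rw [e]
  exact hqd

end Pool.Agent.Results.MP_b0c12c_nt.AlmostPrimePatterns
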