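import Pool.Agent.N914.RG.Mult

set_option autoImplicit false

/-!
# Completely additive functions at consecutive prime gaps of record size

Let `f(x) = log x (log₂ x)² log₄ x / (log₃ x)²`, the size of the largest gaps that are known to
occur among the primes up to `x`.  Let `g` be an ARBITRARY completely multiplicative map from the
natural numbers to a compact commutative group `G`, for instance

* `G = {1, -1}`, `g` the Liouville function (or the completely multiplicative `±1`-valued function
  with any prescribed values at the primes);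
* `G = ℤ/m`, `g = Ω mod m`, or the number of prime factors in any set of primes, modulo `m`;
* `G` the circle, `g(n) = n ^ (i t)`, or a Dirichlet character modified at the primes that divide
  its modulus;
* `G = (ℝ/ℤ)^r`, `g` the fractional parts of any `r` completely additive real functions.

Then the values of `g` which occur at the integers occur, approximately, at `k` consecutive prime
gaps of record size: for every neighbourhood `U` of `1`, every finite colouring `χ` of the natural
numbers and EVERY `m₀ ≥ 1` there are at least `x^(7/8)` blocks of consecutive primes up to `x` with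
gaps `d_1, …, d_k ≥ c f(x)` such that all the numbers

`v = c₀ d_i + μ_1 d_1 + … + μ_(i-1) d_(i-1)`, `1 ≤ i ≤ k`, `μ_j` integers, `|μ_j| ≤ q`

(among them all the differences of two primes of the block, for `c₀ = q = 1`) are positive, have
the same colour, and satisfy `g(v) ∈ g(m₀) U`.  The numbers `c` and `x₀` do not depend on `m₀`.

Method.  Isolated primes with positions in a homothetic copy of an arbitrary bounded pattern
(helper101, helper709: `Pool.Agent.TH709.RGap.engine`); Deuber's theorem for the colouring by the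
cells of `g` and of `χ`, and a further dilation of the pattern by a bounded number `m` with
`g(m) g(B v₀) ∈ g(m₀) V` for the given `B`, `v₀`; that a bounded `m` is sufficient follows from
recurrence in the compact group `G`.
-/

namespace Pool.Agent.Results.MP_b0c12c_nt.CompletelyAdditiveFunctions

/-- The record scale `f(x) = log x (log₂ x)² log₄ x / (log₃ x)²` (iterated natural logarithms). -/
noncomputable def f (x : ℝ) : ℝ :=
  Real.log x * (Real.log (Real.log x)) ^ 2 * Real.log (Real.log (Real.log (Real.log x))) /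
    (Real.log (Real.log (Real.log x))) ^ 2

/-- The `i`-th prime, numbered from `p 0 = 2`. -/
noncomputable def p (i : ℕ) : ℕ := Nat.nth Nat.Prime i

/-- The gap after the `i`-th prime. -/
noncomputable def d (i : ℕ) : ℤ := (p (i + 1) : ℤ) - p i

/-- The primes `p_n, …, p_(n+k)` are at most `x` and the `k` gaps between them are at least
`c f(x)`. -/
def RecordBlock (c x : ℝ) (k n : ℕ) : Prop :=
  (p (n + k) : ℝ) ≤ x ∧ ∀ i < k, c * f x ≤ (d (n + i) : ℝ)

/-- The Deuber set (`(m, p, c)`-set) generated by the `k` gaps after `p_n`: all the integers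
`c₀ d_(n+i) + ∑_(j < i) μ_j d_(n+j)` with `i < k` and integers `|μ_j| ≤ q`. -/
def DeuberSet (q c₀ k n : ℕ) : Set ℤ :=
  {v | ∃ i < k, ∃ μ : ℕ → ℤ, (∀ j, |μ j| ≤ q) ∧
    v = c₀ * d (n + i) + ∑ j ∈ Finset.range i, μ j * d (n + j)}

/-- **Completely multiplicative maps into compact groups at consecutive record gaps.**  Let `G` be a
compact commutative topological group, `g : ℕ → G` with `g (a b) = g a * g b` for `a, b > 0`, `U` a
neighbourhood of `1`, and `c₀ > 0`.  There are `c > 0` and `x₀` such that for all `x ≥ x₀`, every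
colouring `χ` of the natural numbers with `ρ` colours and every `m₀ > 0` there are at least
`x^(7/8)` blocks `p_n, …, p_(n+k)` of consecutive primes up to `x`, with all `k` gaps at least
`c f(x)`, whose Deuber set consists of positive integers `v` of one colour, all of them with
`g(v) g(m₀)⁻¹ ∈ U`. -/
theorem result {G : Type*} [CommGroup G] [TopologicalSpace G] [IsTopologicalGroup G]
    [CompactSpace G] (g : ℕ → G) (hg : ∀ a b, 0 < a → 0 < b → g (a * b) = g a * g b)
    (U : Set G) (hU : U ∈ nhds (1 : G)) (k q c₀ ρ : ℕ) (hc₀ : 0 < c₀) :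
    ∃ c : ℝ, 0 < c ∧ ∃ x₀ : ℝ, ∀ x : ℝ, x₀ ≤ x → ∀ χ : ℕ → Fin ρ, ∀ m₀ : ℕ, 0 < m₀ →
      x ^ (7 / 8 : ℝ) ≤ (Set.ncard {n : ℕ | RecordBlock c x k n ∧
        ∃ col : Fin ρ, ∀ v ∈ DeuberSet q c₀ k n,
          0 < v ∧ χ v.toNat = col ∧ g v.toNat * (g m₀)⁻¹ ∈ U} : ℝ) := by
  obtain ⟨c, hc, h⟩ := Pool.Agent.N914.RG.mult_gaps g hg U hU k q c₀ ρ hc₀
  obtain ⟨x₀, hx₀⟩ := Filter.eventually_atTop.1 h
  refine ⟨c, hc, x₀, fun x hx χ m₀ hm₀ => (hx₀ x hx χ m₀ hm₀).trans ?_⟩
  rw [Nat.cast_le]
  refine Set.ncard_le_ncard ?_ ?_
  · rintro n ⟨h1, h2, col, h3⟩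
    refine ⟨⟨h1, fun i hi => ?_⟩, col, ?_⟩
    · unfold d p
      push_cast
      exact h2 i hi
    · rintro v ⟨i, hi, μ, hμ, rfl⟩
      obtain ⟨m, hm0, hm, hmc, hmU⟩ := h3 i hi μ hμ
      have h4 : (m : ℤ) = c₀ * d (n + i) + ∑ j ∈ Finset.range i, μ j * d (n + j) := hm
      rw [← h4]
      exact ⟨by exact_mod_cast hm0, by rw [Int.toNat_natCast]; exact hmc,
        by rw [Int.toNat_natCast]; exact hmU⟩
  · refine (Set.finite_Iic ⌊x⌋₊).subset ?_
    rintro n ⟨⟨h1, -⟩, -⟩
    refine Nat.le_floor (le_trans ?_ h1)
    have h2 : n + k ≤ Nat.nth Nat.Prime (n + k) :=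
      (Nat.nth_strictMono Nat.infinite_setOfPred_prime).le_apply
    exact_mod_cast (Nat.le_add_right n k).trans h2

end Pool.Agent.Results.MP_b0c12c_nt.CompletelyAdditiveFunctions
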