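import Pool.Agent.N286.QR.Final

set_option autoImplicit false

/-! # Patterns of power residue symbols inside record gaps between primes

Let `p` be a large prime and let `χ` be a nonprincipal character modulo `p` of prime order `l`, for
example the Legendre symbol.  Inside the gaps between primes of the record size for the modulus `p`,
in every interval of length `L ≥ p ^ (1 / 2 + δ)`, the values `χ(x + b_1), ..., χ(x + b_k)` at the
shifts of an integer `x` by any distinct `b_1, ..., b_k` modulo `p` take every prescribed sequence of
`l`-th roots of unity, for all `k` up to `c log p / log l`.  In particular there are gaps of the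
record size which contain `k` consecutive integers with a prescribed sequence of Legendre symbols,
for every `k ≤ c log p`; the number of such `x` is at least `p ^ (-δ)` times the expected number.

Method: the pattern is detected by a product of shifted values of powers of `χ`; the complete sums
of these products against additive characters are bounded by Weil's bound, a shift argument gives
incomplete sums over progressions, and the record gaps come from the covering criterion of the
starting library. -/

namespace Pool.Agent.Results.MP_b0c12c_nt.ResidueSymbolsInRecordGaps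

/-- The record size of gaps between consecutive primes near `x`, up to a constant. -/
noncomputable def recordGap (x : ℝ) : ℝ :=
  Real.log x * (Real.log (Real.log x)) ^ 2 * Real.log (Real.log (Real.log (Real.log x))) /
    (Real.log (Real.log (Real.log x))) ^ 2

/-- The integer `m` is a proper multiple of a prime number that is at most `z`; in particular `m`
is composite. -/
def SmallFactor (z : ℝ) (m : ℤ) : Prop :=
  ∃ q : ℕ, q.Prime ∧ (q : ℝ) ≤ z ∧ (q : ℤ) ∣ m ∧ (q : ℤ) < m

theorem result (δ : ℝ) (hδ : 0 < δ) (hδ1 : δ ≤ 1 / 2) :
    ∃ κ : ℝ, 0 < κ ∧ ∃ p₀ : ℕ, ∀ p : ℕ, p.Prime → p₀ ≤ p →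
    ∀ l : ℕ, l.Prime → ∀ χ : DirichletCharacter ℂ p, χ ≠ 1 → χ ^ l = 1 →
    ∀ k : ℕ, (l : ℝ) ^ k ≤ (p : ℝ) ^ (δ / 32) →
    ∀ b : Fin k → ZMod p, Function.Injective b →
    ∀ z : Fin k → ℂ, (∀ j, z j ^ l = 1) →
    ∀ a L : ℕ, L ≤ p → (p : ℝ) ^ (1 / 2 + δ) ≤ L →
    (L : ℝ) / (l : ℝ) ^ k * (p : ℝ) ^ (-δ) ≤
      Set.ncard {x : ℕ | a ≤ x ∧ x < a + L ∧ (∀ j, χ ((x : ZMod p) + b j) = z j) ∧
        ∀ m : ℤ, |(m : ℝ) - x| ≤ κ * recordGap p → SmallFactor ((p : ℝ) ^ δ) m} :=
  Pool.Agent.N286.QR.final δ hδ hδ1

end Pool.Agent.Results.MP_b0c12c_nt.ResidueSymbolsInRecordGaps
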